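import Pool.Agent.H224R2.Mah.Defs

namespace Pool.Agent.H224R2.Mah

open MeasureTheory Set Filter Topology
open scoped ENNReal RealInnerProductSpace

section
variable {n : ℕ}

/-- C2. Linear change of variables on `ℂ^n` for a real matrix. -/
theorem C2_change (b : Fin n → Fin n → ℝ) (hb : (Matrix.of b).det ≠ 0) (F : (Fin n → ℂ) → ℝ≥0∞) :
    ∫⁻ z, F (fun k => uu (b k) z) * ENNReal.ofReal ((Matrix.of b).det ^ 2) = ∫⁻ u, F u := by
  set M : Matrix (Fin n) (Fin n) ℂ := (Matrix.of b).map (algebraMap ℝ ℂ) with hM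
  set L : (Fin n → ℂ) →ₗ[ℂ] (Fin n → ℂ) := Matrix.toLin' M with hL
  have hdetC : LinearMap.det L = ((Matrix.of b).det : ℂ) := by
    rw [hL, LinearMap.det_toLin', hM]
    exact (RingHom.map_det (algebraMap ℝ ℂ) (Matrix.of b)).symm
  have hdetR : LinearMap.det (L.restrictScalars ℝ) = (Matrix.of b).det ^ 2 := by
    rw [LinearMap.det_restrictScalars, hdetC, Algebra.norm_complex_apply, Complex.normSq_ofReal]
    ring
  have hne : LinearMap.det (L.restrictScalars ℝ) ≠ 0 := by
    rw [hdetR]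
    exact pow_ne_zero 2 hb
  set e : (Fin n → ℂ) ≃ₗ[ℝ] (Fin n → ℂ) := LinearEquiv.ofIsUnitDet (f := L.restrictScalars ℝ)
    (v := Module.finBasis ℝ (Fin n → ℂ)) (v' := Module.finBasis ℝ (Fin n → ℂ)) (by
      rw [LinearMap.det_toMatrix]
      exact isUnit_iff_ne_zero.mpr hne) with he
  have hemb : MeasurableEmbedding (L.restrictScalars ℝ) := by
    have : ⇑(L.restrictScalars ℝ) = ⇑(e.toContinuousLinearEquiv.toHomeomorph) := by
      ext z k
      rfl
    rw [this]
    exact e.toContinuousLinearEquiv.toHomeomorph.measurableEmbedding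
  have hmap := Measure.map_linearMap_addHaar_eq_smul_addHaar
    (μ := (volume : Measure (Fin n → ℂ))) hne
  have hval : ∀ z : Fin n → ℂ, (fun k => uu (b k) z) = (L.restrictScalars ℝ) z := by
    intro z
    ext k
    simp [hL, hM, uu, Matrix.toLin'_apply, Matrix.mulVec, dotProduct]
  simp_rw [hval]
  rw [lintegral_mul_const' _ _ ENNReal.ofReal_ne_top, ← hemb.lintegral_map, hmap,
    lintegral_smul_measure, hdetR, smul_eq_mul, mul_comm, ← mul_assoc,
    ← ENNReal.ofReal_mul (by positivity), abs_inv, abs_of_nonneg (sq_nonneg _),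
    mul_inv_cancel₀ (pow_ne_zero 2 hb), ENNReal.ofReal_one, one_mul]

end

end Pool.Agent.H224R2.Mah
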